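import Pool.Agent.H6.FI.TargetsA

/-!
# MP_7500ea_al, row IMB: basic facts on systems of imprimitivity
-/

open scoped Classical

namespace Pool.Agent.H98.FI

open _root_.FI

section

variable {R V : Type} [Group R] [AddCommGroup V]

theorem inv_apply (ρ : R →* AddMonoid.End V) (r : R) (x : V) : ρ r⁻¹ (ρ r x) = x := by
  have h : ρ (r⁻¹ * r) x = x := by
    rw [inv_mul_cancel, map_one]; rfl
  rwa [map_mul, AddMonoid.End.coe_mul, Function.comp_apply] at h

theorem apply_ne (ρ : R →* AddMonoid.End V) (r : R) (x : V) (hx : x ≠ 0) : ρ r x ≠ 0 := by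
  intro h
  apply hx
  have h2 := inv_apply ρ r x
  rw [h, map_zero] at h2
  exact h2.symm

theorem blocks_ne_bot {ρ : R →* AddMonoid.End V} {H : Subgroup R} {W : R ⧸ H → AddSubgroup V}
    (hI : Imp ρ H W) (hV : Nontrivial V) (c : R ⧸ H) : W c ≠ ⊥ := by
  intro hc
  have hall : ∀ d : R ⧸ H, W d = ⊥ := by
    intro d
    obtain ⟨r, hr⟩ := MulAction.exists_smul_eq R d c
    rw [eq_bot_iff]
    intro w hw
    rw [AddSubgroup.mem_bot]
    by_contra hne
    have h1 := hI.perm r d w hw
    rw [hr, hc, AddSubgroup.mem_bot] at h1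
    exact apply_ne ρ r w hne h1
  have h2 := hI.sup
  rw [iSup_eq_bot.mpr hall] at h2
  exact bot_ne_top h2

theorem disj {ρ : R →* AddMonoid.End V} {H : Subgroup R} {W : R ⧸ H → AddSubgroup V}
    (hI : Imp ρ H W) {c d : R ⧸ H} (h : c ≠ d) {w : V} (h1 : w ∈ W c) (h2 : w ∈ W d) : w = 0 := by
  have h3 := (hI.ind.pairwiseDisjoint h).le_bot (AddSubgroup.mem_inf.mpr ⟨h1, h2⟩)
  rwa [AddSubgroup.mem_bot] at h3

theorem exists_ne_coset {H : Subgroup R} (hH : H ≠ ⊤) (c : R ⧸ H) : ∃ d : R ⧸ H, d ≠ c := by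
  by_contra hno
  push Not at hno
  apply hH
  have : Subsingleton (R ⧸ H) := ⟨fun a b => (hno a).trans (hno b).symm⟩
  exact QuotientGroup.subgroup_eq_top_of_subsingleton H this

theorem blocks_ne_top {ρ : R →* AddMonoid.End V} {H : Subgroup R} {W : R ⧸ H → AddSubgroup V}
    (hI : Imp ρ H W) (hV : Nontrivial V) (c : R ⧸ H) : W c ≠ ⊤ := by
  intro hc
  obtain ⟨d, hd⟩ := exists_ne_coset hI.ne c
  apply blocks_ne_bot hI hV d
  rw [eq_bot_iff]
  intro w hw
  rw [AddSubgroup.mem_bot]
  exact disj hI hd hw (by rw [hc]; trivial)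

theorem core_smul {H : Subgroup R} {r : R} (hr : r ∈ H.normalCore) (c : R ⧸ H) : r • c = c := by
  rw [Subgroup.normalCore_eq_ker, MonoidHom.mem_ker] at hr
  have h2 := congrArg (fun e : Equiv.Perm (R ⧸ H) => e c) hr
  exact h2

theorem smul_core {H : Subgroup R} {r : R} (hr : ∀ c : R ⧸ H, r • c = c) : r ∈ H.normalCore := by
  rw [Subgroup.normalCore_eq_ker, MonoidHom.mem_ker]
  ext c
  exact hr c

end

theorem pf_IMB : T_IMB := by
  intro R V _ _ _ _ ρ H W hI hV
  refine ⟨blocks_ne_bot hI hV, ?_, ?_, ?_, ?_⟩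
  · intro c
    rcases lt_or_eq_of_le (Nat.card_le_card_of_injective ((W c).subtype) (Subtype.val_injective)) with h | h
    · exact h
    · exact absurd (AddSubgroup.eq_top_of_card_eq _ h) (blocks_ne_top hI hV c)
  · intro c r hr w hw
    have h := hI.perm r c w hw
    rwa [core_smul hr c] at h
  · intro r hr
    apply smul_core
    intro c
    by_contra hne
    apply blocks_ne_bot hI hV c
    rw [eq_bot_iff]
    intro w hw
    rw [AddSubgroup.mem_bot]
    have h := hI.perm r c w hw
    rw [hr w trivial] at h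
    exact disj hI hne h hw
  · have : Fintype (R ⧸ H) := Fintype.ofFinite _
    have hinj := hI.ind.dfinsuppSumAddHom_injective
    have hsur : Function.Surjective
        (DFinsupp.sumAddHom fun c => (W c).subtype) := by
      rw [← AddMonoidHom.range_eq_top, eq_top_iff, ← hI.sup]
      apply iSup_le
      intro c w hw
      refine ⟨DFinsupp.single c ⟨w, hw⟩, ?_⟩
      rw [DFinsupp.sumAddHom_single]
      rfl
    have hcard := Nat.card_congr (Equiv.ofBijective _ ⟨hinj, hsur⟩)
    rw [← hcard, Nat.card_congr DFinsupp.equivFunOnFintype, Nat.card_pi,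
      finprod_eq_prod_of_fintype]

end Pool.Agent.H98.FI
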