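import Pool.Agent.H6.FI.TargetsC
import Pool.Agent.H6.FI.Lib

/-!
# MP_7500ea_al, row KKP: positivity of the number of characters and the sum of their degrees
-/

open scoped Classical ComplexConjugate

namespace Pool.Agent.H98.FI

open _root_.FI AMc AMt

theorem pf_KKP : T_KKP := by
  intro Γ _ _ K U hKU θ hθ
  obtain ⟨fs, hfs, -⟩ := _root_.FI.Lib.lS9 Γ U
  have hfin : (Ab U θ).Finite :=
    (Finset.finite_toSet fs).subset fun χ hχ => Finset.mem_coe.mpr ((hfs χ).mpr hχ.1)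
  have hone : ∀ χ ∈ Ab U θ, (1 : ℝ) ≤ (χ 1).re := by
    intro χ hχ
    obtain ⟨-, -, ⟨d, hd, hd2⟩, -⟩ := _root_.FI.Lib.lS1 Γ U χ hχ.1
    rw [hd2, Complex.natCast_re]
    exact_mod_cast hd
  refine ⟨hfin, ?_, ?_⟩
  · obtain ⟨χ, hχ, ho⟩ := _root_.FI.Lib.lE4 Γ K U hKU θ hθ
    exact (Set.ncard_pos hfin).mpr ⟨χ, hχ, ho⟩
  · have h1 : dd U θ = ∑ χ ∈ hfin.toFinset, (χ 1).re :=
      finsum_mem_eq_finite_toFinset_sum _ hfin
    have h2 : kk U θ = hfin.toFinset.card := Set.ncard_eq_toFinset_card _ hfin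
    rw [h1, h2, Finset.card_eq_sum_ones, Nat.cast_sum]
    apply Finset.sum_le_sum
    intro χ hχ
    rw [Nat.cast_one]
    exact hone χ ((Set.Finite.mem_toFinset hfin).mp hχ)

end Pool.Agent.H98.FI
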